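import Pool.Agent.helper25.OAU.Spec
import Pool.Agent.helper50.AUT.PD

/-!
# Project oau: module OPD (the word written by the reduction)
-/

set_option autoImplicit false

namespace Pool.Agent.helper25.OAU

open N68a2faeb N793a5b8e
open Pool.Agent.helper56.SGE hiding Pt
open Pool.Agent.helper56.SGE.QSys
open Pool.Agent.helper98.Tsei Pool.Agent.H54.PT
open Pool.Agent.helper14.AU

theorem OPD_r5 {c x y z : Fn} (hc : Cp c) (hx : Cp x) (hy : Cp y) (hz : Cp z) :
    Dp (fun w v => code (r5 (c w v) (x w v) (y w v) (z w v))) := by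
  have hc1 := hc.add (Cp.const 1)
  have hc2 := hc.add (Cp.const 2)
  refine ((PD_tri hx hy hc).append ((PD_tri hx hy hc1).append ((PD_tri hy hx hc2).append
    ((PD_tri hc1 hc hc2).append (PD_tri hc1 hc hz))))).congr fun w v => ?_
  unfold r5 code
  simp

theorem OPD_code_append (L M : List (ℕ × ℕ × ℕ)) : code (L ++ M) = code L ++ code M := by
  unfold code
  rw [List.flatMap_append]

theorem OPD_nil : code ([] : List (ℕ × ℕ × ℕ)) = [] := rfl

theorem OPD_trip {b k p q r : Fn} (hb : Cp b) (hk : Cp k) (hp : Cp p) (hq : Cp q) (hr : Cp r) :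
    Dp (fun x v => code (trip' (b x v) (k x v, p x v, q x v, r x v))) := by
  classical
  have hb1 := hb.add (Cp.const 1)
  have hb2 := hb.add (Cp.const 2)
  have hb3 := hb.add (Cp.const 3)
  have hb4 := hb.add (Cp.const 4)
  have hb5 := hb.add (Cp.const 5)
  have hb6 := hb.add (Cp.const 6)
  have hc1 := hb6.add (Cp.const 3)
  have hc2 := hc1.add (Cp.const 3)
  have hc3 := hc2.add (Cp.const 3)
  have hc4 := hc3.add (Cp.const 3)
  have hc5 := hc4.add (Cp.const 3)
  have hc6 := hc5.add (Cp.const 3)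
  refine (Dp.iteP (Cq.eq hk (Cp.const 0))
    ((OPD_r5 hb6 hp hq hb).append ((OPD_r5 hc1 hp hq hb2).append ((OPD_r5 hc2 hp hb2 hb1).append
      ((OPD_r5 hc3 hr hb3 hb).append ((OPD_r5 hc4 hr hb4 hb1).append
        ((OPD_r5 hc5 hr hb3 hb4).append (OPD_r5 hc6 hb hb1 hb5)))))))
    (Dp.iteP (Cq.eq hk (Cp.const 1)) (OPD_r5 hb6 hp hq hb)
      (Dp.iteP (Cq.eq hk (Cp.const 2))
        ((OPD_r5 hb6 hp hq hb).append ((OPD_r5 hc1 hp hr hb1).append (OPD_r5 hc2 hp hb hb1)))
        ((PD_tri hp hq hb).append (PD_tri hq hr hb))))).congr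
    fun x v => ?_
  unfold trip' rl
  by_cases h0 : k x v = 0
  · simp only [h0, if_true, gad, OPD_code_append, List.append_nil, Nat.zero_le,
      List.append_assoc]
  · by_cases h1 : k x v = 1
    · simp [h1, gad]
    · by_cases h2 : k x v = 2
      · simp [h2, gad, OPD_code_append]
      · have h3 : ¬ k x v ≤ 2 := by omega
        simp only [h0, h1, h2, h3, if_false]
        unfold code
        simp

theorem OPD_flat (N0 G : ℕ) (it : ℕ → Item) :
    code (sysT' N0 G it) = (List.range G).flatMap fun g =>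
      code (trip' (N0 + 27 * g) ((it g).1, (it g).2.1, (it g).2.2.1, (it g).2.2.2)) := by
  unfold code sysT'
  rw [List.flatMap_assoc]

theorem OPD (hPU : PU_stmt) (hPI : PI_stmt) : OPD_stmt := by
  classical
  obtain ⟨hnv, hm, _, _⟩ := hPU
  obtain ⟨h1, h2, h3, h4⟩ := hPI
  have hR : Cp (fun x _ => nR (sysU x)) := hnv.add (Cp.const 2)
  have hN0 : Cp (fun x _ => nN0 (sysU x)) :=
    ((Cp.const 4).add ((Cp.const 5).mul hR)).add hm
  have hG : Cp (fun x _ => nG (sysU x)) :=
    ((Cp.const 11).add ((Cp.const 13).mul hR)).add ((Cp.const 3).mul hm)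
  refine (Dp.forE' (w := fun x _ g => code (trip' (nN0 (sysU x) + 27 * g)
    ((itemOf (sysU x) (MU x) g).1, (itemOf (sysU x) (MU x) g).2.1,
      (itemOf (sysU x) (MU x) g).2.2.1, (itemOf (sysU x) (MU x) g).2.2.2))) hG ?_).congr
    fun x v => ?_
  · exact OPD_trip (hN0.add ((Cp.const 27).mul (Cp.var 0))) h1 h2 h3 h4
  · unfold sysW'
    rw [OPD_flat]

end Pool.Agent.helper25.OAU
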